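import Mathlib

/-! # Minors of `F + U V` and minors of `F` -/

set_option autoImplicit false

namespace Pool.Agent.D0H72.TS

open Finset

/-- the ideal of the `p`-minors -/
def minIdeal {R α β : Type*} [CommRing R] (F : Matrix α β R) (p : ℕ) : Ideal R :=
  Ideal.span (Set.range fun l : (Fin p → α) × (Fin p → β) => (F.submatrix l.1 l.2).det)

theorem row_mem {R α β : Type*} [CommRing R] (F : Matrix α β R) (p : ℕ) :
    ∀ (d : ℕ) (M : Matrix (Fin (p + d)) (Fin (p + d)) R) (x : Fin (p + d) → α) (y : Fin (p + d) → β)
      (S : Finset (Fin (p + d))), p ≤ S.card → (∀ i ∈ S, ∀ j, M i j = F (x i) (y j)) →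
      M.det ∈ minIdeal F p := by
  intro d
  induction d with
  | zero =>
    intro M x y S hS hM
    have hu : S = Finset.univ := by
      apply Finset.eq_univ_of_card
      have h1 := Finset.card_le_univ S
      simp only [Fintype.card_fin] at h1 ⊢
      omega
    have h2 : M = F.submatrix x y := by
      ext i j
      rw [hM i (by rw [hu]; exact Finset.mem_univ i) j]
      rfl
    rw [h2]
    exact Ideal.subset_span ⟨(x, y), rfl⟩
  | succ d ih =>
    intro M x y S hS hM
    obtain ⟨i, hi⟩ : ∃ i : Fin (p + (d + 1)), p ≤ (S.erase i).card := by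
      by_cases hc : p + 1 ≤ S.card
      · refine ⟨⟨0, by omega⟩, ?_⟩
        have := Finset.pred_card_le_card_erase (s := S) (a := (⟨0, by omega⟩ : Fin (p + (d + 1))))
        omega
      · obtain ⟨i, hi⟩ : ∃ i, i ∉ S := by
          by_contra hcon
          push Not at hcon
          have h1 : S = Finset.univ := Finset.eq_univ_iff_forall.2 hcon
          rw [h1] at hc
          simp only [Finset.card_univ, Fintype.card_fin] at hc
          omega
        exact ⟨i, by rw [Finset.erase_eq_of_notMem hi]; exact hS⟩
    have key := Matrix.det_succ_row (n := p + d) M i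
    rw [key]
    refine Ideal.sum_mem _ fun j _ => Ideal.mul_mem_left _ _ ?_
    refine ih _ (x ∘ i.succAbove) (y ∘ j.succAbove)
      (Finset.univ.filter fun t => i.succAbove t ∈ S) ?_ ?_
    · have h1 : (Finset.univ.filter fun t => i.succAbove t ∈ S).image i.succAbove = S.erase i := by
        ext t
        simp only [Finset.mem_image, Finset.mem_filter, Finset.mem_univ, true_and, Finset.mem_erase]
        constructor
        · rintro ⟨u, hu, rfl⟩
          exact ⟨Fin.succAbove_ne i u, hu⟩
        · rintro ⟨h1, h2⟩
          obtain ⟨u, rfl⟩ := Fin.exists_succAbove_eq h1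
          exact ⟨u, h2, rfl⟩
      have h2 := Finset.card_image_of_injective
        (Finset.univ.filter fun t => i.succAbove t ∈ S) (Fin.succAbove_right_injective (p := i))
      rw [h1] at h2
      rw [h2] at hi
      convert hi
      rfl
    · intro t ht j'
      rw [Finset.mem_filter] at ht
      exact hM _ ht.2 _

theorem add_mem {R α β : Type*} [CommRing R] (F : Matrix α β R) {k r : ℕ} (hr : r ≤ k)
    (x : Fin k → α) (y : Fin k → β) (U : Matrix (Fin k) (Fin r) R) (V : Matrix (Fin r) (Fin k) R) :
    (Matrix.of fun i j => F (x i) (y j) + ∑ t, U i t * V t j : Matrix (Fin k) (Fin k) R).det ∈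
      minIdeal F (k - r) := by
  classical
  set c : Fin k → Option (Fin r) → R := fun i o => o.elim 1 fun t => U i t with hc
  set W : Fin k → Option (Fin r) → Fin k → R := fun i o => o.elim (fun j => F (x i) (y j)) fun t => V t
    with hW
  have h1 : (Matrix.of fun i j => F (x i) (y j) + ∑ t, U i t * V t j : Matrix (Fin k) (Fin k) R) =
      Matrix.of fun i => ∑ o : Option (Fin r), c i o • W i o := by
    ext i j
    simp [hc, hW, Fintype.sum_option]
  have h2 : (Matrix.of fun i => ∑ o : Option (Fin r), c i o • W i o : Matrix (Fin k) (Fin k) R).det =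
      ∑ f : Fin k → Option (Fin r), (Matrix.of fun i => c i (f i) • W i (f i) :
        Matrix (Fin k) (Fin k) R).det := by
    have := (Matrix.detRowAlternating (n := Fin k) (R := R)).toMultilinearMap.map_sum
      (fun i (o : Option (Fin r)) => c i o • W i o)
    exact this
  rw [h1, h2]
  refine Ideal.sum_mem _ fun f _ => ?_
  have h3 : (Matrix.of fun i => c i (f i) • W i (f i) : Matrix (Fin k) (Fin k) R).det =
      (∏ i, c i (f i)) * (Matrix.of fun i => W i (f i) : Matrix (Fin k) (Fin k) R).det := by
    have := Matrix.det_mul_column (fun i => c i (f i)) (Matrix.of fun i => W i (f i) :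
      Matrix (Fin k) (Fin k) R)
    exact this
  rw [h3]
  refine Ideal.mul_mem_left _ _ ?_
  by_cases hf : ∃ i i' : Fin k, i ≠ i' ∧ f i = f i' ∧ f i ≠ none
  · obtain ⟨i, i', hne, he, hn⟩ := hf
    have h4 : (Matrix.of fun i => W i (f i) : Matrix (Fin k) (Fin k) R).det = 0 := by
      refine Matrix.det_zero_of_row_eq hne ?_
      obtain ⟨t, ht⟩ := Option.ne_none_iff_exists'.1 hn
      funext j
      simp only [Matrix.of_apply, ← he, ht, hW]
      rfl
    rw [h4]
    exact Ideal.zero_mem _
  · push Not at hf
    obtain ⟨d, hd⟩ : ∃ d, k = (k - r) + d := ⟨r, by omega⟩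
    set S : Finset (Fin k) := Finset.univ.filter fun i => f i = none with hS
    have hcard : k - r ≤ S.card := by
      have h5 : (Finset.univ.filter fun i => ¬ f i = none).card ≤ r := by
        have h6 : ((Finset.univ.filter fun i => ¬ f i = none).image f) ⊆
            (Finset.univ : Finset (Fin r)).map Function.Embedding.some := by
          intro o ho
          rw [Finset.mem_image] at ho
          obtain ⟨i, hi, rfl⟩ := ho
          rw [Finset.mem_filter] at hi
          obtain ⟨t, ht⟩ := Option.ne_none_iff_exists'.1 hi.2
          rw [Finset.mem_map]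
          exact ⟨t, Finset.mem_univ t, by rw [ht]; rfl⟩
        have h7 := Finset.card_le_card h6
        rw [Finset.card_map, Finset.card_univ, Fintype.card_fin] at h7
        rwa [Finset.card_image_of_injOn] at h7
        intro i hi i' hi' he
        by_contra hne
        rw [Finset.coe_filter] at hi
        exact hi.2 (hf i i' hne he)
      have h8 := Finset.card_filter_add_card_filter_not (s := (Finset.univ : Finset (Fin k)))
        (fun i => f i = none)
      rw [Finset.card_univ, Fintype.card_fin] at h8
      have h9 : S.card + (Finset.univ.filter fun i => ¬ f i = none).card = k := by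
        rw [hS]
        convert h8
      omega
    have hM : ∀ i ∈ S, ∀ j, (Matrix.of fun i => W i (f i) : Matrix (Fin k) (Fin k) R) i j =
        F (x i) (y j) := by
      intro i hi j
      rw [hS, Finset.mem_filter] at hi
      simp only [Matrix.of_apply, hi.2, hW]
      rfl
    generalize (Matrix.of fun i => W i (f i) : Matrix (Fin k) (Fin k) R) = M at hM ⊢
    clear_value S
    clear hS h1 h2 h3 hf hW hc
    clear_value W c
    generalize k - r = p at hd hcard ⊢
    subst hd
    exact row_mem F p d M x y S hcard hM

end Pool.Agent.D0H72.TS
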