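import Pool.Agent.D0H67.TS.DStm
import Pool.Agent.D0H72.TS.SylaCore

/-! # Project TS: module SYLA -/

set_option autoImplicit false
set_option linter.unusedSectionVars false
set_option linter.unusedVariables false

namespace Pool.Agent.D0H72.TS

open MvPolynomial
open Pool.Agent.D0H67.TS (minG brd S_SYLA)

/-- the bordered minors with all rows and columns -/
noncomputable def bf (m n : Type) {r : ℕ} (a : Fin r → m) (b : Fin r → n) :
    Matrix m n (MvPolynomial (m × n) ℂ) :=
  Matrix.of fun i j => minG m n r (a, b) * X (i, j) - ∑ s, ∑ t, X (i, b s) *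
    (Matrix.of fun i j => X (a i, b j) :
      Matrix (Fin r) (Fin r) (MvPolynomial (m × n) ℂ)).adjugate s t * X (a t, j)

theorem bf_row (m n : Type) {r : ℕ} (a : Fin r → m) (b : Fin r → n) (s0 : Fin r) (j : n) :
    bf m n a b (a s0) j = 0 := by
  set A : Matrix (Fin r) (Fin r) (MvPolynomial (m × n) ℂ) := Matrix.of fun i j => X (a i, b j) with hA
  have h1 : ∀ t, ∑ s, A s0 s * A.adjugate s t = if s0 = t then A.det else 0 := by
    intro t
    have := congrFun (congrFun (Matrix.mul_adjugate A) s0) t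
    rw [Matrix.mul_apply] at this
    rw [this, Matrix.smul_apply, Matrix.one_apply]
    split_ifs <;> simp
  have h2 : bf m n a b (a s0) j = A.det * X (a s0, j) - ∑ s, ∑ t, A s0 s * A.adjugate s t * X (a t, j) :=
    rfl
  rw [h2, Finset.sum_comm]
  have h3 : ∀ t, ∑ s, A s0 s * A.adjugate s t * X (a t, j) =
      (if s0 = t then A.det else 0) * X (a t, j) := by
    intro t
    rw [← h1, Finset.sum_mul]
  rw [Finset.sum_congr rfl fun t _ => h3 t]
  simp

theorem bf_col (m n : Type) {r : ℕ} (a : Fin r → m) (b : Fin r → n) (t0 : Fin r) (i : m) :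
    bf m n a b i (b t0) = 0 := by
  set A : Matrix (Fin r) (Fin r) (MvPolynomial (m × n) ℂ) := Matrix.of fun i j => X (a i, b j) with hA
  have h1 : ∀ s, ∑ t, A.adjugate s t * A t t0 = if s = t0 then A.det else 0 := by
    intro s
    have := congrFun (congrFun (Matrix.adjugate_mul A) s) t0
    rw [Matrix.mul_apply] at this
    rw [this, Matrix.smul_apply, Matrix.one_apply]
    split_ifs <;> simp
  have h2 : bf m n a b i (b t0) = A.det * X (i, b t0) -
      ∑ s, ∑ t, X (i, b s) * A.adjugate s t * A t t0 := rfl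
  rw [h2]
  have h3 : ∀ s, ∑ t, X (i, b s) * A.adjugate s t * A t t0 =
      X (i, b s) * (if s = t0 then A.det else 0) := by
    intro s
    rw [← h1, Finset.mul_sum]
    exact Finset.sum_congr rfl fun t _ => mul_assoc _ _ _
  rw [Finset.sum_congr rfl fun s _ => h3 s]
  simp [mul_comm]

theorem t_SYLA : S_SYLA := by
  intro m n _ _ r k a b hr q
  classical
  set A : Matrix (Fin r) (Fin r) (MvPolynomial (m × n) ℂ) := Matrix.of fun i j => X (a i, b j) with hA
  have hkey := add_mem (bf m n a b) hr q.1 q.2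
    (Matrix.of fun i t => ∑ s, X (q.1 i, b s) * A.adjugate s t)
    (Matrix.of fun t j => X (a t, q.2 j))
  have h1 : (Matrix.of fun i j => bf m n a b (q.1 i) (q.2 j) + ∑ t,
      (Matrix.of fun i t => ∑ s, X (q.1 i, b s) * A.adjugate s t :
        Matrix (Fin k) (Fin r) (MvPolynomial (m × n) ℂ)) i t *
      (Matrix.of fun t j => X (a t, q.2 j) : Matrix (Fin r) (Fin k) (MvPolynomial (m × n) ℂ)) t j :
        Matrix (Fin k) (Fin k) (MvPolynomial (m × n) ℂ)) =
      A.det • (Matrix.of fun i j => X (q.1 i, q.2 j) :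
        Matrix (Fin k) (Fin k) (MvPolynomial (m × n) ℂ)) := by
    ext1 i j
    simp only [Matrix.of_apply, Matrix.smul_apply, smul_eq_mul]
    have h2 : bf m n a b (q.1 i) (q.2 j) = A.det * X (q.1 i, q.2 j) -
      ∑ s, ∑ t, X (q.1 i, b s) * A.adjugate s t * X (a t, q.2 j) := rfl
    rw [h2, Finset.sum_comm]
    have h3 : ∀ t, (∑ s, X (q.1 i, b s) * A.adjugate s t) * X (a t, q.2 j) =
        ∑ s, X (q.1 i, b s) * A.adjugate s t * X (a t, q.2 j) := fun t => Finset.sum_mul _ _ _
    rw [Finset.sum_congr rfl fun t _ => h3 t]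
    ring
  rw [h1, Matrix.det_smul, Fintype.card_fin] at hkey
  have hd : A.det ^ k * (Matrix.of fun i j => X (q.1 i, q.2 j) :
      Matrix (Fin k) (Fin k) (MvPolynomial (m × n) ℂ)).det =
      minG m n r (a, b) ^ k * minG m n k q := rfl
  rw [hd] at hkey
  refine (Ideal.span_le.2 ?_ : minIdeal (bf m n a b) (k - r) ≤ _) hkey
  rintro _ ⟨l, rfl⟩
  simp only [SetLike.mem_coe]
  by_cases ha : ∃ i, l.1 i ∈ Set.range a
  · obtain ⟨i, s0, hs⟩ := ha
    rw [Matrix.det_eq_zero_of_row_eq_zero i]
    · exact Ideal.zero_mem _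
    · intro j
      rw [Matrix.submatrix_apply, ← hs]
      exact bf_row m n a b s0 _
  by_cases hb : ∃ j, l.2 j ∈ Set.range b
  · obtain ⟨j, t0, ht⟩ := hb
    rw [Matrix.det_eq_zero_of_column_eq_zero j]
    · exact Ideal.zero_mem _
    · intro i
      rw [Matrix.submatrix_apply, ← ht]
      exact bf_col m n a b t0 _
  push Not at ha hb
  refine Ideal.subset_span ⟨(fun i => ⟨l.1 i, ha i⟩, fun j => ⟨l.2 j, hb j⟩), ?_⟩
  simp only [minG]
  rw [AlgHom.map_det]
  congr 1
  ext1 i j
  simp only [AlgHom.mapMatrix_apply, Matrix.map_apply, Matrix.of_apply, bind₁_X_right,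
    Matrix.submatrix_apply]
  rfl

end Pool.Agent.D0H72.TS
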